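import Mathlib
import Pool.Agent.Run7.h55.KD.Gal

/-!
# MP_666dc0_nt for `GL(n)`: the balanced L-algebraic representations suffice

Let `F` be a number field. The parameter of an L-algebraic cuspidal representation `Q` of `GL(n, 𝔸_F)` at a real place
`u` predicts the conjugacy class, in particular the trace `t_u(Q)`, of the complex conjugation `c_u` in the representation
`r_Q` of `Γ_F`. Call `Q` balanced if `t_u(Q) = 0` for all real places `u` (for `n = 2` and `F` totally real: totally odd).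
The known constructions of Galois representations by means of the cohomology of Shimura varieties concern
representations with small `t_u`.

Results, for a prime `ℓ` and `P` the set of the places which do not divide `ℓ`.
* (1) If the assertion of the question (number field of definition, and the representations `r_Q` for all embeddings,
  unramified with the right eigenvalues at ALL places in `P` at which `Q` is unramified) holds for all balanced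
  L-algebraic cuspidal representations of `GL(2n)`, it holds for all L-algebraic cuspidal representations of `GL(n)`.
* (2) For every `k`: it holds for all L-algebraic cuspidal representations of all `GL(n)` if and only if it holds for
  those which are balanced and have degree divisible by `2^k`.
* (3) For one representation `Q`: `r_Q` exists (for a given embedding) if `r_{Q ⊠ τ}` exists for all `τ` with
  `tr τ(c_u) = 0` for all `u` in general position; and if the `r_Q` exist for all embeddings, the Satake parameters of `Q`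
  are defined over a number field as soon as this is so for `Q ⊠ τ`, for all these `τ`.

Here `τ` runs through the two-dimensional representations of `Γ_F` with finite image whose projective image is a Klein
four group.

Proof. Let `D` be the group of the four characters `δ` with `τ ⊗ δ ≅ τ`; then `C_τ = r_{Q ⊠ τ} ⊗ τ^∨` has the parameters of
`⊞_{δ ∈ D} Q ⊗ δ`. So `⊕_{δ ∈ D'} C_τ ⊗ δ = ⊕_{δ ∈ D} C_τ' ⊗ δ` for all `τ`, `τ'`; hence the constituents of all `C_τ` are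
twists of those of one of them, and if `D` avoids the finitely many characters which carry one of these to another,
`C_τ = ⊕_{δ ∈ D} B ⊗ δ` with the same `B`. At a place `v` one uses a `τ` which is unramified and scalar at `v`. The
number field: if `σ ∈ Aut(ℂ)` fixes the fields of definition for two `τ`, `τ'` in general position with respect to
`B`, the representation `B'` for the conjugate `σ(Q)` has the same sums as `B` over `D` and over `D'`, and so `B' = B`.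
-/

set_option autoImplicit false

open Finset

namespace Pool.Agent.Results.MP_666dc0_nt.BalancedRepresentations

open Run7.h55.KD

variable {P X U : Type} [CommGroup X]

/-- all Satake parameters at the places in `P` at which `Q` is unramified are defined over a number field `E`: they are
fixed by all automorphisms of `ℂ` over `E` -/
def DefinedOverNumberField (𝒢 : LAlgebraic P X U) (Q : 𝒢.Cusp) : Prop :=
  ∃ E : IntermediateField ℚ ℂ, FiniteDimensional ℚ E ∧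
    ∀ σ : ℂ ≃+* ℂ, (∀ x ∈ E, σ x = x) → ∀ v, v ∉ 𝒢.ramC Q → conjM σ (𝒢.satC Q v) = 𝒢.satC Q v

/-- there is a semisimple representation of `Γ_F`, the sum of the irreducible representations `ρ ∈ B`, which is unramified
at all `v ∈ P` outside `b`, and its Frobenius elements at these places have the eigenvalues `A(v)` -/
def HasRepresentation (𝒢 : LAlgebraic P X U) (A : P → Multiset ℂˣ) (b : Set P) : Prop :=
  ∃ B : Multiset 𝒢.Rep, ∀ v, v ∉ b → (∀ ρ ∈ B, v ∉ 𝒢.ram ρ) ∧ (B.map fun ρ => 𝒢.sat ρ v).sum = A v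

/-- The assertion of the question for `Q`: (i) the number field, and (ii) the Galois representation for all isomorphisms
`ℂ ≅ ℚ̄_ℓ`, which are given by the automorphisms `σ` of `ℂ`. -/
def IsGalois (𝒢 : LAlgebraic P X U) (Q : 𝒢.Cusp) : Prop :=
  DefinedOverNumberField 𝒢 Q ∧ ∀ σ : ℂ ≃+* ℂ, HasRepresentation 𝒢 (fun v => conjM σ (𝒢.satC Q v)) (𝒢.ramC Q)

/-- `t_u(Q) = 0` for all real places -/
def Balanced (𝒢 : LAlgebraic P X U) (Q : 𝒢.Cusp) : Prop := ∀ u, 𝒢.trC Q u = 0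

/-- `τ` has `tr τ(c_u) = 0` for all real places `u`, and no `δ ≠ 1` with `τ ⊗ δ ≅ τ` is a self-twist of `Q` -/
def Fits (𝒢 : LAlgebraic P X U) (Q : 𝒢.Cusp) (τ : 𝒢.Tw) : Prop :=
  (∀ u, 𝒢.trT τ u = 0) ∧ ∀ δ ∈ 𝒢.grp τ, δ ∈ 𝒢.selfTwist Q → δ = 1

theorem result (P X U : Type) [CommGroup X] [Infinite P] (𝒢 : LAlgebraic P X U) :
    -- (1)
    (∀ n : ℕ, (∀ Q' : 𝒢.Cusp, 𝒢.dim Q' = 2 * n → Balanced 𝒢 Q' → IsGalois 𝒢 Q') →
      ∀ Q : 𝒢.Cusp, 𝒢.dim Q = n → IsGalois 𝒢 Q) ∧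
    -- (2)
    (∀ k : ℕ, (∀ Q : 𝒢.Cusp, IsGalois 𝒢 Q) ↔
      ∀ Q : 𝒢.Cusp, 2 ^ k ∣ 𝒢.dim Q → Balanced 𝒢 Q → IsGalois 𝒢 Q) ∧
    -- (3)
    (∀ Q : 𝒢.Cusp,
      (∀ σ : ℂ ≃+* ℂ, (∀ τ, Fits 𝒢 Q τ →
          HasRepresentation 𝒢 (fun v => conjM σ (tens (𝒢.satC Q v) (𝒢.satT τ v))) (𝒢.ramC Q ∪ 𝒢.ramT τ)) →
        HasRepresentation 𝒢 (fun v => conjM σ (𝒢.satC Q v)) (𝒢.ramC Q)) ∧
      ((∀ σ : ℂ ≃+* ℂ, HasRepresentation 𝒢 (fun v => conjM σ (𝒢.satC Q v)) (𝒢.ramC Q)) →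
        (∀ τ, Fits 𝒢 Q τ → ∃ E : IntermediateField ℚ ℂ, FiniteDimensional ℚ E ∧
          ∀ σ : ℂ ≃+* ℂ, (∀ x ∈ E, σ x = x) → ∀ v, v ∉ 𝒢.ramC Q → v ∉ 𝒢.ramT τ →
            conjM σ (tens (𝒢.satC Q v) (𝒢.satT τ v)) = tens (𝒢.satC Q v) (𝒢.satT τ v)) →
        DefinedOverNumberField 𝒢 Q)) := by
  classical
  have hv0 : Nonempty P := inferInstance
  have part3a : ∀ (Q : 𝒢.Cusp) (σ : ℂ ≃+* ℂ), (∀ τ, Fits 𝒢 Q τ →
      HasRepresentation 𝒢 (fun v => conjM σ (tens (𝒢.satC Q v) (𝒢.satT τ v))) (𝒢.ramC Q ∪ 𝒢.ramT τ)) →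
        HasRepresentation 𝒢 (fun v => conjM σ (𝒢.satC Q v)) (𝒢.ramC Q) :=
    fun Q σ h => attached_descent 𝒢 Q σ fun τ => h τ.1 τ.2
  have part3b : ∀ Q : 𝒢.Cusp,
      (∀ σ : ℂ ≃+* ℂ, HasRepresentation 𝒢 (fun v => conjM σ (𝒢.satC Q v)) (𝒢.ramC Q)) →
        (∀ τ, Fits 𝒢 Q τ → ∃ E : IntermediateField ℚ ℂ, FiniteDimensional ℚ E ∧
          ∀ σ : ℂ ≃+* ℂ, (∀ x ∈ E, σ x = x) → ∀ v, v ∉ 𝒢.ramC Q → v ∉ 𝒢.ramT τ →
            conjM σ (tens (𝒢.satC Q v) (𝒢.satT τ v)) = tens (𝒢.satC Q v) (𝒢.satT τ v)) →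
        DefinedOverNumberField 𝒢 Q := by
    intro Q hrep hdef
    obtain ⟨B, hB⟩ := hrep (RingEquiv.refl ℂ)
    have hB' : ∀ v, v ∉ 𝒢.ramC Q → (∀ ρ ∈ B, v ∉ 𝒢.ram ρ) ∧ param 𝒢.toCuspidals B v = 𝒢.satC Q v := by
      intro v hv
      obtain ⟨h1, h2⟩ := hB v hv
      refine ⟨h1, ?_⟩
      have h3 : conjM (RingEquiv.refl ℂ) (𝒢.satC Q v) = 𝒢.satC Q v := by
        unfold conjM
        conv_rhs => rw [← Multiset.map_id (𝒢.satC Q v)]
        exact Multiset.map_congr rfl fun x _ => Units.ext rfl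
      rw [← h3]
      exact h2
    obtain ⟨E0, hE0⟩ := exists_transporters 𝒢.toCuspidals B
    obtain ⟨τ, hτ, -⟩ := good_exists' 𝒢 Q E0 hv0.some
    obtain ⟨τ', hτ', -⟩ := good_exists' 𝒢 Q ((𝒢.grp τ.1 ×ˢ E0).image fun p => p.1 * p.2) hv0.some
    obtain ⟨K, hK, hK2⟩ := hdef τ.1 τ.2
    obtain ⟨K', hK', hK2'⟩ := hdef τ'.1 τ'.2
    have hf := 𝒢.fieldT_finite τ.1
    have hf' := 𝒢.fieldT_finite τ'.1
    refine ⟨(K ⊔ 𝒢.fieldT τ.1) ⊔ (K' ⊔ 𝒢.fieldT τ'.1), ?_, ?_⟩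
    · infer_instance
    intro σ hσ
    obtain ⟨C, hC⟩ := hrep σ
    have hC' : ∀ v, v ∉ 𝒢.ramC Q → (∀ ρ ∈ C, v ∉ 𝒢.ram ρ) ∧
        param 𝒢.toCuspidals C v = conjM σ (𝒢.satC Q v) := hC
    have hnorm : ∀ (τ : 𝒢.Tw), (∀ v, v ∉ 𝒢.ramC Q → v ∉ 𝒢.ramT τ →
        conjM σ (tens (𝒢.satC Q v) (𝒢.satT τ v)) = tens (𝒢.satC Q v) (𝒢.satT τ v)) →
        (∀ v, v ∉ 𝒢.ramT τ → conjM σ (𝒢.satT τ v) = 𝒢.satT τ v) →
        norm 𝒢.toCuspidals (𝒢.grp τ) C = norm 𝒢.toCuspidals (𝒢.grp τ) B := by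
      intro τ h1 h2
      refine ext_param 𝒢.toCuspidals ((𝒢.ramC_finite Q).union (𝒢.ramT_finite τ)) fun v hv => ?_
      rw [Set.mem_union, not_or] at hv
      obtain ⟨hv1, hv2⟩ := hv
      have hD : ∀ δ ∈ 𝒢.grp τ, v ∉ 𝒢.ramX δ := fun δ hδ h => hv2 (𝒢.ramX_grp τ δ hδ h)
      rw [param_norm 𝒢.toCuspidals hD (hC' v hv1).1, param_norm 𝒢.toCuspidals hD (hB' v hv1).1,
        (hC' v hv1).2, (hB' v hv1).2]
      rw [← tens_tens_conj 𝒢 hv2, h1 v hv1 hv2, conjM_invs, h2 v hv2]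
      rw [tens_assoc, 𝒢.satT_dual τ v hv2, spread_eq_tens]
    have hσ1 : ∀ x ∈ K, σ x = x := fun x hx => hσ x (le_sup_left (a := K ⊔ 𝒢.fieldT τ.1) (le_sup_left (a := K) hx))
    have hσ2 : ∀ x ∈ 𝒢.fieldT τ.1, σ x = x := fun x hx =>
      hσ x (le_sup_left (a := K ⊔ 𝒢.fieldT τ.1) (le_sup_right (b := 𝒢.fieldT τ.1) hx))
    have hσ3 : ∀ x ∈ K', σ x = x := fun x hx =>
      hσ x (le_sup_right (b := K' ⊔ 𝒢.fieldT τ'.1) (le_sup_left (a := K') hx))
    have hσ4 : ∀ x ∈ 𝒢.fieldT τ'.1, σ x = x := fun x hx =>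
      hσ x (le_sup_right (b := K' ⊔ 𝒢.fieldT τ'.1) (le_sup_right (b := 𝒢.fieldT τ'.1) hx))
    have hCB : C = B := by
      refine eq_of_norm 𝒢 (𝒢.isGrp τ.1) (𝒢.isGrp τ'.1) hE0 hτ ?_
        (hnorm τ.1 (fun v => hK2 σ hσ1 v) fun v hv => 𝒢.fieldT_spec τ.1 σ hσ2 v hv)
        (hnorm τ'.1 (fun v => hK2' σ hσ3 v) fun v hv => 𝒢.fieldT_spec τ'.1 σ hσ4 v hv)
      intro δ hδ ε hε h
      have h1 : ε = 1 := by
        refine hτ' ε hε (Finset.mem_image.2 ⟨(δ, δ⁻¹ * ε), Finset.mem_product.2 ⟨hδ, h⟩, ?_⟩)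
        simp only
        rw [mul_inv_cancel_left]
      rw [h1, mul_one] at h
      exact inv_eq_one.1 (hτ _ ((𝒢.isGrp τ.1).inv_mem _ hδ) h)
    intro v hv
    rw [← (hC' v hv).2, hCB, (hB' v hv).2]
  have part1 : ∀ n : ℕ, (∀ Q' : 𝒢.Cusp, 𝒢.dim Q' = 2 * n → Balanced 𝒢 Q' → IsGalois 𝒢 Q') →
      ∀ Q : 𝒢.Cusp, 𝒢.dim Q = n → IsGalois 𝒢 Q := by
    intro n hn Q hQ
    have hex : ∀ τ, Fits 𝒢 Q τ → ∃ Q' : 𝒢.Cusp, IsGalois 𝒢 Q' ∧ 𝒢.ramC Q' ⊆ 𝒢.ramC Q ∪ 𝒢.ramT τ ∧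
        ∀ v, v ∉ 𝒢.ramC Q → v ∉ 𝒢.ramT τ → 𝒢.satC Q' v = tens (𝒢.satC Q v) (𝒢.satT τ v) := by
      intro τ hτ
      obtain ⟨Q', h1, h2, h3, h4⟩ := 𝒢.tensor Q τ hτ.2
      refine ⟨Q', hn Q' (by rw [h1, hQ]) fun u => ?_, h2, h3⟩
      rw [h4, hτ.1, mul_zero]
    have hrep : ∀ σ : ℂ ≃+* ℂ, HasRepresentation 𝒢 (fun v => conjM σ (𝒢.satC Q v)) (𝒢.ramC Q) := by
      intro σ
      refine part3a Q σ fun τ hτ => ?_
      obtain ⟨Q', h1, h2, h3⟩ := hex τ hτ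
      obtain ⟨B, hB⟩ := h1.2 σ
      refine ⟨B, fun v hv => ?_⟩
      obtain ⟨h4, h5⟩ := hB v fun h => hv (h2 h)
      refine ⟨h4, ?_⟩
      rw [Set.mem_union, not_or] at hv
      rw [h5]
      change conjM σ (𝒢.satC Q' v) = conjM σ (tens (𝒢.satC Q v) (𝒢.satT τ v))
      rw [h3 v hv.1 hv.2]
    refine ⟨part3b Q hrep fun τ hτ => ?_, hrep⟩
    obtain ⟨Q', h1, h2, h3⟩ := hex τ hτ
    obtain ⟨E, hE, h4⟩ := h1.1
    refine ⟨E, hE, fun σ hσ v hv1 hv2 => ?_⟩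
    rw [← h3 v hv1 hv2]
    refine h4 σ hσ v fun h => ?_
    rcases h2 h with h | h
    · exact hv1 h
    · exact hv2 h
  refine ⟨part1, fun k => ⟨fun h Q _ _ => h Q, ?_⟩, fun Q => ⟨part3a Q, part3b Q⟩⟩
  induction k with
  | zero =>
    intro h Q
    exact part1 _ (fun Q' _ h2 => h Q' (by simp) h2) Q rfl
  | succ k ih =>
    intro h
    refine ih fun Q hQ _ => part1 _ (fun Q' h1 h2 => h Q' ?_ h2) Q rfl
    rw [h1, pow_succ, mul_comm 2 _]
    exact Nat.mul_dvd_mul_right hQ 2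

end Pool.Agent.Results.MP_666dc0_nt.BalancedRepresentations
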