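import Pool.Agent.Run7.h55.FG.Field
import Pool.Agent.Run7.h55.FG.Zp

/-!
# L-algebraic representations: Galois representations at few twists

Let `G` be a connected reductive group over the number field `F`, `M` a Levi subgroup, `σ` a cuspidal automorphic
representation of `M(𝔸)`, and `r : ᴸG → GL_n` a representation of the L-group. Let `r_i`, `i ∈ L`, be the parts of the
restriction of `r` to `ᴸM` on which the torus `(Z(M̂)^Γ)°` acts by different characters, and let `T i v` be the
multiset of the eigenvalues of `r_i` at the Satake parameter of `σ_v` (transported to the field `k = ℚ̄_ℓ`). If `σ` is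
twisted by characters of `M(𝔸)` and `Π` is an automorphic representation of `G(𝔸)` with the cuspidal support `σ ⊗ ψ`,
for example in the residual spectrum, or a value of an Eisenstein series, then the composition of `r` with the Galois
representation `r_Π` which is asked for in Q1.2 has at `v` the Frobenius eigenvalues `⋃_i ψ_i(Frob_v) T i v` (here: the
multiset `twisted T ψ`), with characters `ψ_i` of the absolute Galois group. Example: `G` is a classical group, `M = GL_n`
its Siegel Levi subgroup, and `T 1`, `T 2` are the parameters of `σ` and of its dual; the representation of `T 1` is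
`r_σ`. This is the way in which Harris, Lan, Taylor and Thorne find `r_σ` if `σ` is not self-dual.

Let `S` be a finite set of primes of `F`, or a set of density zero, and `k` an algebraically closed Hausdorff
topological field of characteristic zero (`ℚ̄_ℓ`, or `ℂ`). `HasGalois S T`: there is a continuous representation of the
absolute Galois group `GK F` over `k` with the property of Q1.2 at all `v ∉ S`: unramified, Frobenius elements
semisimple with the eigenvalues `T v`. `HasSemisimple`: there is a semisimple one. The theorem is about an arbitrary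
family of multisets `T i v`, `i ∈ L`, `v ∉ S`, and has no further hypothesis:

* (A) Let `ψ_e`, `e ∈ ι`, be any family of tuples of characters which are continuous and unramified outside `S`. Then all
  `T i` have representations, or the set of the `e` for which `⋃_i ψ_{e,i} T i` has a representation is contained in a
  FINITE union of special sets `{e | ψ_{e,i}(Frob_v) = c ψ_{e,j}(Frob_v)}`, `i ≠ j`, `v ∉ S`, `c ∈ k^×`.
* (B) If at each `v ∉ S` the quotients `ψ_{e,i}(Frob_v) / ψ_{e,j}(Frob_v)` are different for different `e` (`i ≠ j`), then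
  `N = ((l + 1)! l n ^ 3 + 1) ^ n (n + 1)` members with a representation are enough, `l = |L|`, `n = ∑_i |T i v|`.
* (C) Let `κ : GK F → ℤ_p` be a `ℤ_p`-extension, unramified outside `S`, in which no `v ∉ S` splits completely (the
  cyclotomic one), and let `w_i` be different integers (for a maximal parabolic subgroup). The set of the continuous
  characters `φ : ℤ_p → k^×` for which `⋃_i (φ ∘ κ)^{w_i} T i` has a representation is finite, or all `T i` have
  representations (and then it consists of all `φ`, by (E)). So to find `r_σ` it is enough to have the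
  representations for infinitely many twists by characters of FINITE order and `p`-power conductor.
* (D) Let `ε` be a character whose values `ε(Frob_v)`, `v ∉ S`, are not roots of unity (the cyclotomic character).
  The number of the integers `m` for which `⋃_i ε^{m w_i} T i` has a representation is less than `N`, or all `T i` have
  representations.
* (E) If all `T i` have representations, then so has `⋃_i ψ_i T i`, for all `ψ`.

Harris, Lan, Taylor and Thorne (Proposition 7.12 of their paper on the rigid cohomology of Shimura varieties) use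
(D) with two parts and all large `m`; an explicit number of twists, twists of finite order and (A) are new.

Proof. By Chebotarev's theorem (from the library) and the linear independence of irreducible characters the Frobenius
eigenvalues determine the irreducible constituents of a representation. Let `C(e)` be the set of the constituents for
the member `e`. For a tuple `x` of members with an index `x_0` and an index `x_m` for each `m ∈ L`, expand the determinant
with the columns `ψ_m` (`m ∈ L`) and `⋃ ψ_i T i` along the last column: it vanishes, and this gives an identity between two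
direct sums of twists of the `C(x_m)`. So for each `x` two twisted constituents coincide, and by a count the same
irreducible representation `τ` occurs in `ψ_{e,i}⁻¹ ⊗ C(e)` for many (or infinitely many) `e`. Then the Frobenius
eigenvalues of `τ` are contained in `T i v` for all `v ∉ S`; remove them and use induction.
-/

set_option autoImplicit false
set_option linter.unusedSectionVars false

namespace Pool.Agent.Results.MP_666dc0_nt.GaloisAtFewTwists

open Matrix Filter Topology NumberField IsDedekindDomain Run7.h55.FG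
open Pool.Agent.W401.Cheb

variable {F : Type} [Field F] [NumberField F] {k : Type} [Field k] [TopologicalSpace k]

/-- The property of Q1.2: `R` is continuous, and for all primes `v` which are not in `S` the representation `R` is
unramified at `v`, and the images of the Frobenius elements `σ` at `v` are semisimple with the eigenvalues `T v σ`. -/
structure IsAttached (S : Set (HeightOneSpectrum (𝓞 F))) (T : HeightOneSpectrum (𝓞 F) → GK F → Multiset kˣ) {N : ℕ}
    (R : GK F →* GL (Fin N) k) : Prop where
  continuous : Continuous fun x => (R x : Matrix (Fin N) (Fin N) k)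
  unramified : ∀ v ∉ S, ∀ τ, IsInert v τ → R τ = 1
  semisimple : ∀ v ∉ S, ∀ σ, IsFrob v σ →
    Module.End.IsSemisimple (Matrix.toLin' (R σ : Matrix (Fin N) (Fin N) k))
  eigenvalues : ∀ v ∉ S, ∀ σ, IsFrob v σ →
    (R σ : Matrix (Fin N) (Fin N) k).charpoly.roots = (T v σ).map Units.val

/-- There is a representation with the property of Q1.2. -/
def HasGalois (S : Set (HeightOneSpectrum (𝓞 F))) (T : HeightOneSpectrum (𝓞 F) → GK F → Multiset kˣ) : Prop :=
  ∃ (N : ℕ) (R : GK F →* GL (Fin N) k), IsAttached S T R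

/-- There is a semisimple representation with the property of Q1.2: every subspace of `k ^ N` which is stable under
`R` has a stable complement. -/
def HasSemisimple (S : Set (HeightOneSpectrum (𝓞 F))) (T : HeightOneSpectrum (𝓞 F) → GK F → Multiset kˣ) : Prop :=
  ∃ (N : ℕ) (R : GK F →* GL (Fin N) k), IsAttached S T R ∧
    ∀ W : Submodule k (Fin N → k), (∀ g, ∀ w ∈ W, (R g : Matrix (Fin N) (Fin N) k) *ᵥ w ∈ W) →
      ∃ W' : Submodule k (Fin N → k), (∀ g, ∀ w ∈ W', (R g : Matrix (Fin N) (Fin N) k) *ᵥ w ∈ W') ∧ IsCompl W W'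

/-- The character `χ` is continuous and unramified outside `S`. -/
def IsCharacter (S : Set (HeightOneSpectrum (𝓞 F))) (χ : GK F →* kˣ) : Prop :=
  (Continuous fun x => (χ x : k)) ∧ ∀ v ∉ S, ∀ τ, IsInert v τ → χ τ = 1

/-- the union of the `ψ i (Frob_v) T i v` -/
noncomputable def twisted {L : Type} [Fintype L] (T : L → HeightOneSpectrum (𝓞 F) → Multiset kˣ) (ψ : L → GK F →* kˣ)
    (v : HeightOneSpectrum (𝓞 F)) (σ : GK F) : Multiset kˣ :=
  ∑ i, (T i v).map fun a => ψ i σ * a

/-- the number of twists which is sufficient, `((l + 1)! l n ^ 3 + 1) ^ n (n + 1)` -/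
def numberOfTwists (l n : ℕ) : ℕ := ((l + 1).factorial * l * n ^ 3 + 1) ^ n * (n + 1)

/-- `h` is one of the sets `{e | ψ e i (Frob_v) = c ψ e j (Frob_v)}` with a prime `v` which is not in `S`, with
`i ≠ j` and a number `c`. -/
def IsSpecial (S : Set (HeightOneSpectrum (𝓞 F))) {L ι : Type} (ψ : ι → L → GK F →* kˣ) (h : Set ι) : Prop :=
  ∃ v ∉ S, ∃ σ, IsFrob v σ ∧ ∃ i j, i ≠ j ∧ ∃ c : kˣ, h = {e | ψ e i σ = c * ψ e j σ}

section lemmas

variable [IsAlgClosed k] [CharZero k] [IsTopologicalRing k] [T2Space k] {S : Set (HeightOneSpectrum (𝓞 F))}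

theorem char_frob {χ : GK F →* kˣ} (hχ : IsCharacter S χ) {v : HeightOneSpectrum (𝓞 F)} (hv : v ∉ S) {σ : GK F}
    (hσ : IsFrob v σ) : χ σ = χ (frb v) := by
  obtain ⟨ρ, τ, h1, h2⟩ := (Pool.Agent.W401.Frob.main F).2.1 v (frb v) σ (isFrob_frb v) hσ
  rw [h2, map_mul, map_mul, map_mul, map_inv, hχ.2 v hv τ h1, mul_one, mul_comm (χ ρ), mul_inv_cancel_right]

/-- invariance of the parameters -/
def Inv (S : Set (HeightOneSpectrum (𝓞 F))) (T : HeightOneSpectrum (𝓞 F) → GK F → Multiset kˣ) : Prop :=
  ∀ v ∉ S, ∀ σ, IsFrob v σ → T v σ = T v (frb v)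

theorem inv_twisted {L : Type} [Fintype L] {T : L → HeightOneSpectrum (𝓞 F) → Multiset kˣ} {ψ : L → GK F →* kˣ}
    (hψ : ∀ i, IsCharacter S (ψ i)) : Inv S (twisted T ψ) := by
  intro v hv σ hσ
  unfold twisted
  refine Finset.sum_congr rfl fun i _ => ?_
  rw [char_frob (hψ i) hv hσ]

/-- the parameters on the places outside `S` -/
noncomputable def res (S : Set (HeightOneSpectrum (𝓞 F))) (T : HeightOneSpectrum (𝓞 F) → GK F → Multiset kˣ)
    (v : {v : HeightOneSpectrum (𝓞 F) // v ∉ S}) : Multiset kˣ := T v.1 (frb v.1)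

theorem lifts_of_hasGalois (hS : Tendsto (dens fun v => v ∈ S) atTop (𝓝 0))
    {T : HeightOneSpectrum (𝓞 F) → GK F → Multiset kˣ} (h : HasGalois S T) :
    Lifts (dat (inr S) (frs S) (chs S) (dense_chs (k := k) hS)) (res S T) := by
  obtain ⟨N, R, hR⟩ := h
  refine lifts_of_hasRep _ ⟨N, R, ⟨hR.continuous, ?_, ?_⟩, fun v => ?_⟩
  · rintro τ ⟨v, hv, hτ⟩
    exact hR.unramified v hv τ hτ
  · rintro σ ⟨v, hv, hσ⟩
    exact hR.semisimple v hv σ hσ
  · apply units_ext
    rw [val_ueig]
    exact hR.eigenvalues v.1 v.2 (frb v.1) (isFrob_frb v.1)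

theorem hasSemisimple_of_lifts (hS : Tendsto (dens fun v => v ∈ S) atTop (𝓝 0))
    {T : HeightOneSpectrum (𝓞 F) → GK F → Multiset kˣ} (hT : Inv S T)
    (h : Lifts (dat (inr S) (frs S) (chs S) (dense_chs (k := k) hS)) (res S T)) : HasSemisimple S T := by
  obtain ⟨N, R, h1, h2, h3⟩ := semis_of_lifts _ h
  refine ⟨N, R, ⟨h2.cont, fun v hv τ hτ => h2.triv τ ⟨v, hv, hτ⟩, fun v hv σ hσ => h2.ss σ ⟨v, hv, hσ⟩,
    fun v hv σ hσ => ?_⟩, h1⟩
  obtain ⟨ρ, τ, h4, h5⟩ := (Pool.Agent.W401.Frob.main F).2.1 v (frb v) σ (isFrob_frb v) hσ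
  rw [hT v hv σ hσ, h5, map_mul, map_mul, map_mul, map_inv, h2.triv τ ⟨v, hv, h4⟩, mul_one,
    Run7.h427.PL.charpoly_conj, ← val_ueig]
  exact congrArg (Multiset.map Units.val) (h3 ⟨v, hv⟩)

/-- the characters as elements of the group of the data -/
noncomputable def emb {χ : GK F →* kˣ} (hχ : IsCharacter S χ) : chars (inr S) k :=
  ⟨χ, hχ.1, by
    rintro τ ⟨v, hv, hτ⟩
    exact hχ.2 v hv τ hτ⟩

theorem res_twisted (hS : Tendsto (dens fun v => v ∈ S) atTop (𝓝 0)) {L : Type} [Fintype L]
    (T : L → HeightOneSpectrum (𝓞 F) → Multiset kˣ) {ψ : L → GK F →* kˣ} (hψ : ∀ i, IsCharacter S (ψ i)) :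
    res S (twisted T ψ) = fam (dat (inr S) (frs S) (chs S) (dense_chs (k := k) hS))
      (fun i v => T i v.1) (fun i => emb (hψ i)) := rfl

end lemmas

/-- **Galois representations at few twists.** -/
theorem result (F : Type) [Field F] [NumberField F] (k : Type) [Field k] [IsAlgClosed k] [CharZero k]
    [TopologicalSpace k] [IsTopologicalRing k] [T2Space k] (S : Set (HeightOneSpectrum (𝓞 F)))
    (hS : Tendsto (dens fun v => v ∈ S) atTop (𝓝 0)) (L : Type) [Fintype L]
    (T : L → HeightOneSpectrum (𝓞 F) → Multiset kˣ) :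
    -- (A) all parts have representations, or the members which have one lie in finitely many special sets
    (∀ (ι : Type) (ψ : ι → L → GK F →* kˣ), (∀ e i, IsCharacter S (ψ e i)) →
      (∀ i, HasSemisimple S fun v _ => T i v) ∨
      ∃ H : Set (Set ι), H.Finite ∧ (∀ h ∈ H, IsSpecial S ψ h) ∧ {e | HasGalois S (twisted T (ψ e))} ⊆ ⋃₀ H) ∧
    -- (B) finitely many members are sufficient
    (∀ n : ℕ, (∀ v ∉ S, ∑ i, Multiset.card (T i v) ≤ n) → ∀ (ι : Type) [Fintype ι] (ψ : ι → L → GK F →* kˣ),
      (∀ e i, IsCharacter S (ψ e i)) → numberOfTwists (Fintype.card L) n ≤ Fintype.card ι →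
      (∀ v ∉ S, ∀ σ, IsFrob v σ → ∀ i j, i ≠ j → Function.Injective fun e => ψ e i σ / ψ e j σ) →
      (∀ e, HasGalois S (twisted T (ψ e))) → ∀ i, HasSemisimple S fun v _ => T i v) ∧
    -- (C) the characters of a `ℤ_p`-extension in which no prime outside `S` splits completely
    (∀ (p : ℕ) [Fact p.Prime] (κ : GK F →* Multiplicative ℤ_[p]), Continuous κ →
      (∀ v ∉ S, ∀ τ, IsInert v τ → κ τ = 1) → (∀ v ∉ S, ∀ σ, IsFrob v σ → κ σ ≠ 1) →
      ∀ w : L → ℤ, Function.Injective w →
      (∀ i, HasSemisimple S fun v _ => T i v) ∨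
      {φ : Multiplicative ℤ_[p] →* kˣ | (Continuous fun x => (φ x : k)) ∧
        HasGalois S (twisted T fun i => (φ.comp κ) ^ w i)}.Finite) ∧
    -- (D) the powers of a character such as the cyclotomic character
    (∀ ε : GK F →* kˣ, IsCharacter S ε → (∀ v ∉ S, ∀ σ, IsFrob v σ → ∀ m : ℕ, 0 < m → ε σ ^ m ≠ 1) →
      ∀ w : L → ℤ, Function.Injective w → ∀ n : ℕ, (∀ v ∉ S, ∑ i, Multiset.card (T i v) ≤ n) →
      (∀ i, HasSemisimple S fun v _ => T i v) ∨
      ({m : ℤ | HasGalois S (twisted T fun i => ε ^ (m * w i))}.Finite ∧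
        {m : ℤ | HasGalois S (twisted T fun i => ε ^ (m * w i))}.ncard < numberOfTwists (Fintype.card L) n)) ∧
    -- (E) the converse
    ((∀ i, HasGalois S fun v _ => T i v) → ∀ ψ : L → GK F →* kˣ, (∀ i, IsCharacter S (ψ i)) →
      HasSemisimple S (twisted T ψ)) := by
  classical
  set 𝒜 := dat (inr S) (frs S) (chs S) (dense_chs (k := k) hS) with h𝒜
  have hbound : ∀ l n, numberOfTwists l n = bound l n := by
    intro l n
    unfold numberOfTwists bound
    congr 3
    ring
  have hconst : ∀ i, Inv S fun v (_ : GK F) => T i v := fun i v _ σ _ => rfl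
  have hup : (∀ i, Lifts 𝒜 (fun v => T i v.1)) → ∀ i, HasSemisimple S fun v _ => T i v := fun h i =>
    hasSemisimple_of_lifts hS (hconst i) (h i)
  have partA : ∀ (ι : Type) (ψ : ι → L → GK F →* kˣ), (∀ e i, IsCharacter S (ψ e i)) →
      (∀ i, HasSemisimple S fun v _ => T i v) ∨
      ∃ H : Set (Set ι), H.Finite ∧ (∀ h ∈ H, IsSpecial S ψ h) ∧
        {e | HasGalois S (twisted T (ψ e))} ⊆ ⋃₀ H := by
    intro ι ψ hψ
    by_contra hcon
    rw [not_or] at hcon
    obtain ⟨hc1, hc2⟩ := hcon
    apply hc1
    refine hup (main_seq 𝒜 (nrm S) (finite_nrm S) (ι := ι) (ψ := fun e i => emb (hψ e i)) ?_)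
    intro H hH
    by_contra hno
    push Not at hno
    apply hc2
    refine ⟨(fun t : {v : HeightOneSpectrum (𝓞 F) // v ∉ S} × L × L × kˣ =>
      {e : ι | ψ e t.2.1 (frb t.1.1) = t.2.2.2 * ψ e t.2.2.1 (frb t.1.1)}) '' (H : Set _),
      H.finite_toSet.image _, ?_, ?_⟩
    · rintro _ ⟨t, ht, rfl⟩
      exact ⟨t.1.1, t.1.2, frb t.1.1, isFrob_frb _, t.2.1, t.2.2.1, hH t ht, t.2.2.2, rfl⟩
    · intro e he
      obtain ⟨t, ht, heq⟩ := hno e (lifts_of_hasGalois hS he)
      exact ⟨_, ⟨t, ht, rfl⟩, div_eq_iff_eq_mul.1 heq⟩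
  have partB : ∀ n : ℕ, (∀ v ∉ S, ∑ i, Multiset.card (T i v) ≤ n) → ∀ (ι : Type) [Fintype ι]
      (ψ : ι → L → GK F →* kˣ),
      (∀ e i, IsCharacter S (ψ e i)) → numberOfTwists (Fintype.card L) n ≤ Fintype.card ι →
      (∀ v ∉ S, ∀ σ, IsFrob v σ → ∀ i j, i ≠ j → Function.Injective fun e => ψ e i σ / ψ e j σ) →
      (∀ e, HasGalois S (twisted T (ψ e))) → ∀ i, HasSemisimple S fun v _ => T i v := by
    intro n hn ι _ ψ hψ hcard hinj hG
    rw [hbound] at hcard
    refine hup (main_fin 𝒜 hcard (ψ := fun e i => emb (hψ e i)) (fun v => hn v.1 v.2) ?_ ?_)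
    · intro v i j hij e e' h
      exact hinj v.1 v.2 (frb v.1) (isFrob_frb _) i j hij h
    · exact fun e => lifts_of_hasGalois hS (hG e)
  refine ⟨partA, partB, ?_, ?_, ?_⟩
  · intro p _ κ hκ hκI hκF w hw
    by_cases hall : ∀ i, HasSemisimple S fun v _ => T i v
    · exact Or.inl hall
    right
    -- the continuous characters
    let ι := {φ : Multiplicative ℤ_[p] →* kˣ // Continuous fun x => (φ x : k)}
    have hch : ∀ (e : ι) i, IsCharacter S ((e.1.comp κ) ^ w i) := by
      intro e i
      have h1 : IsCharacter S (e.1.comp κ) := ⟨e.2.comp hκ, fun v hv τ hτ => by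
        rw [MonoidHom.comp_apply, hκI v hv τ hτ, map_one]⟩
      exact ((emb h1) ^ w i).2.1 |> fun h => ⟨h, fun v hv τ hτ => ((emb h1) ^ w i).2.2 τ ⟨v, hv, hτ⟩⟩
    rcases partA ι (fun e i => (e.1.comp κ) ^ w i) hch with h | ⟨H, hH, hsp, hsub⟩
    · exact absurd h hall
    have hfin : (⋃₀ H).Finite := by
      refine hH.sUnion fun h hh => ?_
      obtain ⟨v, hv, σ, hσ, i, j, hij, c, rfl⟩ := hsp h hh
      have hb : Multiplicative.toAdd (κ σ) ≠ 0 := hκF v hv σ hσ
      have hf := finite_chars_zpow (k := k) hb (m := w i - w j) (sub_ne_zero.2 fun h => hij (hw h)) c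
      refine Set.Finite.of_finite_image (f := Subtype.val) (hf.subset ?_) Subtype.val_injective.injOn
      rintro _ ⟨e, he, rfl⟩
      refine ⟨e.2, ?_⟩
      have he' : ((e.1.comp κ) ^ w i) σ = c * ((e.1.comp κ) ^ w j) σ := he
      have h1 : e.1 (κ σ) ^ w i = c * e.1 (κ σ) ^ w j := he'
      change e.1 (κ σ) ^ (w i - w j) = c
      rw [_root_.zpow_sub, h1, mul_inv_cancel_right]
    refine ((hfin.subset hsub).image Subtype.val).subset ?_
    rintro φ ⟨h1, h2⟩
    exact ⟨⟨φ, h1⟩, h2, rfl⟩
  · intro ε hε hinf w hw n hn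
    by_cases hall : ∀ i, HasSemisimple S fun v _ => T i v
    · exact Or.inl hall
    right
    have hch : ∀ (m : ℤ) i, IsCharacter S (ε ^ (m * w i)) := fun m i =>
      ⟨((emb hε) ^ (m * w i)).2.1, fun v hv τ hτ => ((emb hε) ^ (m * w i)).2.2 τ ⟨v, hv, hτ⟩⟩
    have hinj : ∀ v ∉ S, ∀ σ, IsFrob v σ → ∀ i j, i ≠ j → ∀ m m' : ℤ,
        (ε ^ (m * w i)) σ / (ε ^ (m * w j)) σ = (ε ^ (m' * w i)) σ / (ε ^ (m' * w j)) σ → m = m' := by
      intro v hv σ hσ i j hij m m' h
      have h1 : ∀ m : ℤ, (ε ^ (m * w i)) σ / (ε ^ (m * w j)) σ = ε σ ^ (m * (w i - w j)) := by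
        intro m
        change ε σ ^ (m * w i) / ε σ ^ (m * w j) = _
        rw [mul_sub, _root_.zpow_sub, div_eq_mul_inv]
      rw [h1, h1] at h
      have hord : ¬ IsOfFinOrder (ε σ) := by
        rw [isOfFinOrder_iff_pow_eq_one]
        rintro ⟨r, hr, hr'⟩
        exact hinf v hv σ hσ r hr hr'
      have h2 := (injective_zpow_iff_not_isOfFinOrder.2 hord) h
      exact mul_right_cancel₀ (sub_ne_zero.2 fun h => hij (hw h)) h2
    have hlt : ∀ s : Finset ℤ, (s : Set ℤ) ⊆ {m : ℤ | HasGalois S (twisted T fun i => ε ^ (m * w i))} →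
        s.card < numberOfTwists (Fintype.card L) n := by
      intro s hs
      by_contra hle
      push Not at hle
      apply hall
      refine partB n hn s (fun e i => ε ^ (e.1 * w i)) (fun e i => hch e.1 i) (by rwa [Fintype.card_coe]) ?_
        fun e => hs e.2
      intro v hv σ hσ i j hij e e' h
      exact Subtype.ext (hinj v hv σ hσ i j hij e.1 e'.1 h)
    have hf : {m : ℤ | HasGalois S (twisted T fun i => ε ^ (m * w i))}.Finite := by
      by_contra hinf'
      obtain ⟨s, hs1, hs2⟩ := Set.Infinite.exists_subset_card_eq hinf' (numberOfTwists (Fintype.card L) n)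
      exact absurd (hlt s hs1) (by rw [hs2]; exact lt_irrefl _)
    refine ⟨hf, ?_⟩
    rw [Set.ncard_eq_toFinset_card _ hf]
    exact hlt _ (by rw [Set.Finite.coe_toFinset])
  · intro hG ψ hψ
    refine hasSemisimple_of_lifts hS (inv_twisted hψ) ?_
    rw [res_twisted hS T hψ]
    exact lifts_fam _ (fun i => lifts_of_hasGalois hS (hG i)) _

end Pool.Agent.Results.MP_666dc0_nt.GaloisAtFewTwists
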