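import Pool.Agent.Run7.h427.LG.Red

/-!
# A Deligne–Serre criterion for L-groups

Let `π` be an automorphic representation of a connected reductive group `G` over a number field `F`
whose Satake parameters `s v` are defined over a number field `E` and units (this is the case of Q1 with
trivial infinity type, for instance holomorphic forms of weight one and Maass forms with eigenvalue
`1 / 4`).  We choose a faithful representation of the L-group `ᴸG = Ĝ ⋊ Gal (M / F)` in `GL_n`, so that
`ᴸG` is the set of the solutions of polynomial equations over the integers of `E`, and so are its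
components `Ĝ ⋊ γ`, and the sets of the elements of `Ĝ ⋊ Frob v` on which the invariant functions have
their values at `s v`.  We ask for homomorphisms `r` of the absolute Galois group `G_F` to the group
`ᴸG (K)` over the Galois group, with `r (Frob v)` in the class `s v`.

The theorem is about arbitrary equations: `Θ.group γ` are the equations of the matrix `r γ` (those of
the component `Ĝ ⋊ γ`), `Θ.relations` further polynomial equations between the entries of the matrices
`r γ` for several `γ` (for instance conditions at the complex conjugations or polarisations; there need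
not be any), `Θ.cls v` the equations of `r (Frob v)`.  The `Θ.T v` are the characteristic polynomials
of the `s v` in `GL_n`.

1. The following are equivalent.
(a) The traces `a v` of the `s v` are in a finite set, up to primes `v` of lower density less than
`1 / n ^ 2`, and for infinitely many primes `𝔩` of `E` there is a parameter `r` modulo `𝔩` (a
homomorphism to the points over a finite field, semisimple in `GL_n`).
(b) The same condition on the traces, and there is a parameter modulo `𝔩` for all but finitely many `𝔩`.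
(c) There is a parameter with open kernel over one field of characteristic zero.
(d) There is one over every algebraically closed field of characteristic zero, for instance over `ℂ` and
over the algebraic closures of all the `ℚ_ℓ`, for all embeddings of `E`.
2. If there is a continuous semisimple parameter over one Hausdorff topological field of characteristic
zero, for instance an algebraic closure of one `ℚ_ℓ`, for one embedding of `E`, and the traces satisfy
the condition in (a), then it has finite image, and there is a parameter over all the other fields which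
satisfies all polynomial equations over the integers of `E` which this one satisfies, and is right at
the primes `v` at which this one is right.

For `GL_n` the equivalence of (a) and (d) is our result `MP_ef641d_nt/DeligneSerre` (for `GL_2`: Deligne
and Serre).  It gives a representation in `GL_n (K)` with the right characteristic polynomials, but
this is not enough for other groups: it need not have values in `ᴸG (K)`, and in general an element of
`ᴸG (K)` is not determined up to `Ĝ (K)` by its characteristic polynomial.  Here we show that almost all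
the residual parameters factor through one finite quotient of the Galois group (the trace form on the
span of the image is nondegenerate), and take a limit of them over a field of characteristic zero; the
limit satisfies all the equations, and they can be solved over all algebraically closed fields of
characteristic zero by the theorem of zeros.
-/

set_option autoImplicit false

namespace Pool.Agent.Results.MP_666dc0_nt.LGroupCriterion

open Run7.h427.DS Run7.h427.LG Pool.Agent.W401.Cheb NumberField IsDedekindDomain Filter Polynomial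
open scoped Matrix

/-- A system of Hecke polynomials `T v` of degree `n` together with polynomial equations: for the
matrices `r γ` (for instance those of the component over `γ` of an L-group in `GL_n`), for the entries of
the matrices `r γ` for several `γ` (the variable `(γ, i, j)` is the entry `(i, j)` of `r γ`), and for the
Frobenius elements at `v`. -/
structure ParameterSystem (F E : Type) [Field F] [NumberField F] [Field E] [NumberField E] (n : ℕ)
    extends HeckeSystem F E n where
  /-- the equations for `r γ` -/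
  group : GK F → Set (MvPolynomial (Fin n × Fin n) (𝓞 E))
  /-- equations between several matrices -/
  relations : Set (MvPolynomial (GK F × Fin n × Fin n) (𝓞 E))
  /-- the equations for the Frobenius elements at `v` -/
  cls : HeightOneSpectrum (𝓞 F) → Set (MvPolynomial (Fin n × Fin n) (𝓞 E))

variable {F E : Type} [Field F] [NumberField F] [Field E] [NumberField E] {n : ℕ}

/-- the homomorphism `ρ` satisfies the equations `group` and `relations` -/
def ParameterSystem.Hom (Θ : ParameterSystem F E n) {K : Type} [Field K] (φ : 𝓞 E →+* K)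
    (ρ : GK F →* GL (Fin n) K) : Prop :=
  (∀ γ, InClass (Θ.group γ) φ (ρ γ : Matrix (Fin n) (Fin n) K)) ∧
    ∀ P ∈ Θ.relations, Satisfies φ ρ P

/-- the Frobenius elements at `v` satisfy the equations `cls v` -/
def ParameterSystem.Frob (Θ : ParameterSystem F E n) {K : Type} [Field K] (φ : 𝓞 E →+* K)
    (ρ : GK F →* GL (Fin n) K) (v : HeightOneSpectrum (𝓞 F)) : Prop :=
  ∀ σ : GK F, IsFrob v σ → InClass (Θ.cls v) φ (ρ σ : Matrix (Fin n) (Fin n) K)

/-- There is a parameter modulo `𝔩`: a finite field `k`, a homomorphism `𝓞 E → k` with kernel `𝔩`, a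
semisimple representation over `k` with open kernel which satisfies the equations `group` and
`relations`, and at all `v ∉ S` not dividing the characteristic of `k` is unramified, with the
characteristic polynomial `T v` and the equations `cls v` for the Frobenius elements. -/
def ParameterSystem.Residual (Θ : ParameterSystem F E n) (𝔩 : HeightOneSpectrum (𝓞 E)) : Prop :=
  ∃ r : Θ.ModRep, RingHom.ker r.φ = 𝔩.asIdeal ∧ Θ.Hom r.φ r.ρ ∧
    ∀ v ∉ Θ.S, ((ringChar r.k : ℕ) : 𝓞 F) ∉ v.asIdeal → Θ.Frob r.φ r.ρ v

/-- There is a parameter over `K` with open kernel which is unramified and right at all `v ∉ S`. -/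
def ParameterSystem.Over (Θ : ParameterSystem F E n) {K : Type} [Field K] (φ : 𝓞 E →+* K) : Prop :=
  ∃ R : GK F →* GL (Fin n) K, IsOpen (R.ker : Set (GK F)) ∧ Θ.Hom φ R ∧
    ∀ v ∉ Θ.S, Θ.Matches φ R v ∧ Θ.Frob φ R v

/-- (1) -/
def Equivalence : Prop :=
  ∀ (F E : Type) [Field F] [NumberField F] [Field E] [NumberField E] (n : ℕ)
    (Θ : ParameterSystem F E n), 0 < n →
    List.TFAE [Θ.FewTraces ∧ {𝔩 | Θ.Residual 𝔩}.Infinite,
      Θ.FewTraces ∧ {𝔩 | ¬ Θ.Residual 𝔩}.Finite,
      ∃ (K : Type) (_ : Field K) (_ : CharZero K) (φ : 𝓞 E →+* K), Θ.Over φ,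
      ∀ (K : Type) [Field K] [CharZero K] [IsAlgClosed K] (φ : 𝓞 E →+* K), Θ.Over φ]

/-- (2) -/
def AdicCriterion : Prop :=
  ∀ (F E : Type) [Field F] [NumberField F] [Field E] [NumberField E] (n : ℕ)
    (Θ : ParameterSystem F E n), 0 < n → Θ.FewTraces →
    ∀ (k : Type) [Field k] [CharZero k] [TopologicalSpace k] [IsTopologicalRing k] [T2Space k]
      (φ : 𝓞 E →+* k) (ρ : GK F →* GL (Fin n) k),
      Continuous (fun σ => (ρ σ : Matrix (Fin n) (Fin n) k)) → Semis ρ → Θ.Hom φ ρ →
      {v | ¬ Θ.Matches φ ρ v}.Finite →
      Finite ρ.range ∧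
      ∀ (K : Type) [Field K] [CharZero K] [IsAlgClosed K] (φ' : 𝓞 E →+* K),
        ∃ R : GK F →* GL (Fin n) K, IsOpen (R.ker : Set (GK F)) ∧ Θ.Hom φ' R ∧
          (∀ P : MvPolynomial (GK F × Fin n × Fin n) (𝓞 E), Satisfies φ ρ P → Satisfies φ' R P) ∧
          ∀ v, (Θ.Matches φ ρ v → Θ.Matches φ' R v) ∧ (Θ.Frob φ ρ v → Θ.Frob φ' R v)

/-- all the equations -/
def ParameterSystem.all (Θ : ParameterSystem F E n) :
    Set (MvPolynomial (GK F × Fin n × Fin n) (𝓞 E)) :=
  Θ.relations ∪ {P | ∃ γ, ∃ Q ∈ Θ.group γ, P = MvPolynomial.rename (fun x => (γ, x.1, x.2)) Q}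

theorem hom_iff (Θ : ParameterSystem F E n) {K : Type} [Field K] (φ : 𝓞 E →+* K)
    (ρ : GK F →* GL (Fin n) K) : Θ.Hom φ ρ ↔ ∀ P ∈ Θ.all, Satisfies φ ρ P := by
  constructor
  · rintro ⟨h1, h2⟩ P (hP | ⟨γ, Q, hQ, rfl⟩)
    · exact h2 P hP
    · unfold Satisfies
      rw [MvPolynomial.eval₂_rename]
      exact h1 γ Q hQ
  · intro h
    refine ⟨fun γ Q hQ => ?_, fun P hP => h P (Or.inl hP)⟩
    have h3 := h _ (Or.inr ⟨γ, Q, hQ, rfl⟩)
    unfold Satisfies at h3
    rw [MvPolynomial.eval₂_rename] at h3
    exact h3

theorem residual_iff (Θ : ParameterSystem F E n) (𝔩 : HeightOneSpectrum (𝓞 E)) :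
    Θ.Residual 𝔩 ↔ ∃ r : Θ.ModRep, RingHom.ker r.φ = 𝔩.asIdeal ∧
      (∀ P ∈ Θ.all, Satisfies r.φ r.ρ P) ∧ ∀ v ∉ Θ.S, ((ringChar r.k : ℕ) : 𝓞 F) ∉ v.asIdeal →
        ∀ σ : GK F, IsFrob v σ →
          InClass (Θ.cls v) r.φ (r.ρ σ : Matrix (Fin n) (Fin n) r.k) := by
  constructor
  · rintro ⟨r, h1, h2, h3⟩
    exact ⟨r, h1, (hom_iff Θ _ _).mp h2, h3⟩
  · rintro ⟨r, h1, h2, h3⟩
    exact ⟨r, h1, (hom_iff Θ _ _).mpr h2, h3⟩

/-- a parameter with open kernel has few traces -/
theorem few_traces (Θ : ParameterSystem F E n) (hn : 0 < n) {K : Type} [Field K] [CharZero K]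
    (φ : 𝓞 E →+* K) (h : Θ.Over φ) : Θ.FewTraces := by
  classical
  obtain ⟨R, hR, -, hv⟩ := h
  have hfin : Finite (GK F ⧸ R.ker) := Subgroup.quotient_finite_of_isOpen _ hR
  have hrange : (Set.range fun σ => (R σ : Matrix (Fin n) (Fin n) K).trace).Finite := by
    have h1 : Finite R.range := Finite.of_equiv _ (QuotientGroup.quotientKerEquivRange R).toEquiv
    have h2 : (Set.range fun x : R.range =>
        ((x : GL (Fin n) K) : Matrix (Fin n) (Fin n) K).trace).Finite := Set.finite_range _
    refine h2.subset ?_
    rintro _ ⟨σ, rfl⟩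
    exact ⟨⟨R σ, σ, rfl⟩, rfl⟩
  have hY : (φ ⁻¹' (Set.range fun σ => (R σ : Matrix (Fin n) (Fin n) K).trace)).Finite :=
    hrange.preimage (injective_of_charZero φ).injOn
  refine ⟨hY.toFinset, 0, by norm_num, Filter.Frequently.of_forall fun N => ?_⟩
  have h3 : ∀ v : HeightOneSpectrum (𝓞 F), ¬ (v ∉ Θ.S ∧ Θ.a v ∉ hY.toFinset) := by
    rintro v ⟨h4, h5⟩
    apply h5
    rw [Set.Finite.mem_toFinset, Set.mem_preimage]
    obtain ⟨σ, hσ⟩ := Pool.Agent.W540.BE.exists_isFrob F v
    refine ⟨σ, ?_⟩
    have : Nonempty (Fin n) := ⟨⟨0, hn⟩⟩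
    change (R σ : Matrix (Fin n) (Fin n) K).trace = φ (Θ.a v)
    rw [Matrix.trace_eq_neg_charpoly_coeff, (hv v h4).1.2 σ hσ, Polynomial.coeff_map,
      HeckeSystem.a, map_neg, Fintype.card_fin]
  have h6 := Pool.Agent.W528.Ord.dens_mono (P := fun v => v ∉ Θ.S ∧ Θ.a v ∉ hY.toFinset)
    (Q := fun _ => False) (fun v hv => h3 v hv) N
  refine h6.trans ?_
  simp [dens]

/-- there are infinitely many primes -/
theorem infinite_primes (E : Type) [Field E] [NumberField E] :
    Infinite (HeightOneSpectrum (𝓞 E)) := by
  by_contra hcon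
  rw [not_infinite_iff_finite] at hcon
  obtain ⟨v, hv, -⟩ := exists_frob_outside (F := E) ⊤ isOpen_univ Set.univ
    (fun _ _ _ => Set.mem_univ _) (fun _ _ _ _ => Set.mem_univ _) ⟨1, Set.mem_univ _⟩ Set.univ
    Set.finite_univ
  exact hv (Set.mem_univ v)

/-- **A Deligne–Serre criterion for L-groups.** -/
theorem result : Equivalence ∧ AdicCriterion := by
  refine ⟨?_, ?_⟩
  · intro F E _ _ _ _ n Θ hn
    tfae_have 1 → 4 := by
      rintro ⟨h1, h2⟩ K _ _ _ φ
      obtain ⟨R, hR, h3, h4⟩ := of_residual Θ.toHeckeSystem hn h1 Θ.all Θ.cls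
        (h2.mono fun 𝔩 h => (residual_iff Θ 𝔩).mp h) φ
      exact ⟨R, hR, (hom_iff Θ φ R).mpr h3, h4⟩
    tfae_have 4 → 3 := by
      intro h
      exact ⟨AlgebraicClosure E, inferInstance, inferInstance,
        (algebraMap E (AlgebraicClosure E)).comp (algebraMap (𝓞 E) E), h _ _⟩
    tfae_have 3 → 2 := by
      rintro ⟨K, _, _, φ, h⟩
      refine ⟨few_traces Θ hn φ h, ?_⟩
      obtain ⟨R, hR, h3, h4⟩ := h
      refine (to_residual Θ.toHeckeSystem Θ.all Θ.cls φ R hR ((hom_iff Θ φ R).mp h3) h4).subset ?_
      intro 𝔩 h𝔩 h5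
      exact h𝔩 ((residual_iff Θ 𝔩).mpr h5)
    tfae_have 2 → 1 := by
      rintro ⟨h1, h2⟩
      refine ⟨h1, ?_⟩
      have hinf := infinite_primes E
      have h3 := h2.infinite_compl
      refine h3.mono fun 𝔩 h => ?_
      rw [Set.mem_compl_iff, Set.mem_ofPred_eq, not_not] at h
      exact h
    tfae_finish
  · intro F E _ _ _ _ n Θ hn hf k _ _ _ _ _ φ ρ hc hs hhom hfin
    obtain ⟨h1, h2⟩ := of_adic Θ.toHeckeSystem hn hf φ ρ hc hs hfin
    refine ⟨h1, fun K _ _ _ φ' => ?_⟩
    obtain ⟨R, hR, h3, h4, h5⟩ := h2 K φ'
    exact ⟨R, hR, (hom_iff Θ φ' R).mpr fun P hP => h3 P ((hom_iff Θ φ ρ).mp hhom P hP), h3,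
      fun v => ⟨h4 v, fun h σ hσ => h5 σ _ (h σ hσ)⟩⟩

end Pool.Agent.Results.MP_666dc0_nt.LGroupCriterion
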