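import Pool.Agent.Run7.h427.CZ.Padic

/-!
# L-algebraic representations: descent of admissible homomorphisms from solvable extensions

Let `G` be a connected reductive group over the number field `F`, split over the finite Galois extension
`K` of `F`, and let `Π` be an L-algebraic automorphic representation of `G`, unramified outside the
finite set `S`, with Satake parameters defined over `E`.  Q1.2 asks for admissible homomorphisms
`r_Π : GK F → ᴸG (PadicAlgCl ℓ)` which are unramified at `v ∉ S`, `v ∤ ℓ`, with `r_Π (Frob_v)` in the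
class of the Satake parameter.

We choose an embedding of `ᴸG = Ĝ ⋊ Gal (K / F)` in `GL_n` over `ℚ`.  By Chevalley's theorem a reductive
subgroup of `GL_n` is the stabiliser of a vector `w` in an algebraic representation `Φ` of `GL_n` over
`ℚ`, and such a `Φ` maps matrices with characteristic polynomial over `L` to such matrices.  These data,
with the projection `δ` of `ᴸG` on `Δ = Gal (K / F)`, whose kernel is `Ĝ`, the projection `θ` of `GK F` on
`Δ`, and representatives `s σ ∈ Ĝ ⋊ σ` of the Satake parameters at the Frobenius elements `σ`, are collected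
in the structure `LData`; `L` is the field generated over `ℚ_ℓ` by the image of `E`.

The Satake parameters of the base change of `Π` to a finite extension `F'` of `F`, at a place with residue
degree `f` above `v`, are the classes of the powers `s σ ^ f`.  We show: if `F' / F` is a solvable Galois
extension (or any tower of cyclic extensions of prime degrees), ramified wherever one likes, of degree
divisible only by primes `p` with `[L (ζ_p) : L] > m`, where `m` is the maximum of the dimensions of `GL_n`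
and `Φ`, and if there is an admissible homomorphism over `F'` attached to the base change, semisimple but
*not necessarily irreducible* in `GL_n`, then it extends, in exactly one way, to an admissible homomorphism
over `F` attached to `Π`.  For `G` a form of `GL_n` and for the classical groups (`forms`) `m = n` is
enough.  So one cyclic extension of large prime degree is enough, while for the usual descent
arguments one needs a family of such extensions.  The point is that the characteristic polynomials are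
rational over `L`.
-/

set_option autoImplicit false

namespace Pool.Agent.Results.MP_666dc0_nt.LGroupDescent

open Matrix Filter Topology NumberField IsDedekindDomain Polynomial Run7.h427.CY Run7.h427.CZ
open Pool.Agent.W401.Cheb Pool.Agent.W528.Ord
open Run7.h427.DS (Semis)

variable {ℓ : ℕ} [Fact ℓ.Prime] {n N : ℕ}

/-- The characteristic polynomial of the matrix `g` has coefficients in `L`. -/
def CharOver (L : IntermediateField ℚ_[ℓ] (PadicAlgCl ℓ)) (g : GL (Fin n) (PadicAlgCl ℓ)) : Prop :=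
  ∀ i, (g : Matrix (Fin n) (Fin n) (PadicAlgCl ℓ)).charpoly.coeff i ∈ L

/-- The homomorphism `Φ` maps matrices with characteristic polynomial over `L` to such matrices, like
the algebraic representations of `GL_n` defined over `L`. -/
def RatHom (L : IntermediateField ℚ_[ℓ] (PadicAlgCl ℓ))
    (Φ : GL (Fin n) (PadicAlgCl ℓ) →* GL (Fin N) (PadicAlgCl ℓ)) : Prop :=
  ∀ g, CharOver L g → CharOver L (Φ g)

/-- The stabiliser of the vector `w` in the representation `Φ` of `GL_n`. -/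
def stab (Φ : GL (Fin n) (PadicAlgCl ℓ) →* GL (Fin N) (PadicAlgCl ℓ))
    (w : Fin N → PadicAlgCl ℓ) : Subgroup (GL (Fin n) (PadicAlgCl ℓ)) where
  carrier := {g | (Φ g : Matrix (Fin N) (Fin N) (PadicAlgCl ℓ)) *ᵥ w = w}
  one_mem' := by
    change (Φ 1 : Matrix (Fin N) (Fin N) (PadicAlgCl ℓ)) *ᵥ w = w
    rw [map_one, Units.val_one, Matrix.one_mulVec]
  mul_mem' := by
    intro a b ha hb
    change (Φ (a * b) : Matrix (Fin N) (Fin N) (PadicAlgCl ℓ)) *ᵥ w = w
    change (Φ a : Matrix (Fin N) (Fin N) (PadicAlgCl ℓ)) *ᵥ w = w at ha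
    change (Φ b : Matrix (Fin N) (Fin N) (PadicAlgCl ℓ)) *ᵥ w = w at hb
    rw [map_mul, Units.val_mul, ← Matrix.mulVec_mulVec, hb, ha]
  inv_mem' := by
    intro a ha
    change (Φ a : Matrix (Fin N) (Fin N) (PadicAlgCl ℓ)) *ᵥ w = w at ha
    change (Φ a⁻¹ : Matrix (Fin N) (Fin N) (PadicAlgCl ℓ)) *ᵥ w = w
    calc (Φ a⁻¹ : Matrix (Fin N) (Fin N) (PadicAlgCl ℓ)) *ᵥ w
        = (Φ a⁻¹ : Matrix (Fin N) (Fin N) (PadicAlgCl ℓ)) *ᵥ
            ((Φ a : Matrix (Fin N) (Fin N) (PadicAlgCl ℓ)) *ᵥ w) := by rw [ha]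
      _ = w := by
          rw [Matrix.mulVec_mulVec, ← Units.val_mul, ← map_mul, inv_mul_cancel, map_one,
            Units.val_one, Matrix.one_mulVec]

/-- An algebraic subgroup of `GL_n`: the stabiliser of the vector `w` in the representation `Φ` of `GL_n`
of dimension `N`. -/
structure AGroup (n ℓ : ℕ) [Fact ℓ.Prime] (L : IntermediateField ℚ_[ℓ] (PadicAlgCl ℓ)) where
  N : ℕ
  Φ : GL (Fin n) (PadicAlgCl ℓ) →* GL (Fin N) (PadicAlgCl ℓ)
  w : Fin N → PadicAlgCl ℓ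
  rat : RatHom L Φ

/-- the group of the matrices -/
def AGroup.grp {L : IntermediateField ℚ_[ℓ] (PadicAlgCl ℓ)} (A : AGroup n ℓ L) :
    Subgroup (GL (Fin n) (PadicAlgCl ℓ)) :=
  stab A.Φ A.w

/-- The projections `δ` of the L-group `A` and `θ` of the absolute Galois group of `F` on the discrete
group `Δ`. -/
structure Proj (F : Type) [Field F] [NumberField F] (A : Subgroup (GL (Fin n) (PadicAlgCl ℓ))) where
  Δ : Type
  grp : Group Δ
  top : TopologicalSpace Δ
  disc : DiscreteTopology Δ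
  δ : A →* Δ
  δc : Continuous δ
  θ : GK F →* Δ
  θc : Continuous θ

/-- The Satake parameter `s σ` at the Frobenius elements `σ` at `v ∉ S`, `S` finite, an element of the
coset of `σ` in the L-group `A` with characteristic polynomial `P v`, which is defined over `L`. -/
structure Satake (F : Type) [Field F] [NumberField F]
    (L : IntermediateField ℚ_[ℓ] (PadicAlgCl ℓ)) (A : Subgroup (GL (Fin n) (PadicAlgCl ℓ)))
    (p : Proj F A) where
  S : Set (HeightOneSpectrum (𝓞 F))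
  fin : S.Finite
  s : GK F → A
  P : HeightOneSpectrum (𝓞 F) → (PadicAlgCl ℓ)[X]
  PL : ∀ v ∉ S, ∀ i, (P v).coeff i ∈ L
  sP : ∀ v ∉ S, ∀ σ : GK F, IsFrob v σ →
    ((s σ : GL (Fin n) (PadicAlgCl ℓ)) : Matrix (Fin n) (Fin n) (PadicAlgCl ℓ)).charpoly = P v
  sθ : ∀ v ∉ S, ∀ σ : GK F, IsFrob v σ → p.δ (s σ) = p.θ σ

/-- An L-group in `GL_n` and the Satake parameters of an automorphic representation over the number
field `F`. -/
structure LData (F : Type) [Field F] [NumberField F] (n ℓ : ℕ) [Fact ℓ.Prime] where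
  /-- the field over which the Satake parameters are defined -/
  L : IntermediateField ℚ_[ℓ] (PadicAlgCl ℓ)
  /-- the L-group -/
  alg : AGroup n ℓ L
  /-- the projections on the finite Galois group -/
  proj : Proj F alg.grp
  /-- the Satake parameters -/
  sat : Satake F L alg.grp proj

variable {F : Type} [Field F] [NumberField F]

/-- the L-group -/
abbrev LData.LG (𝔻 : LData F n ℓ) : Subgroup (GL (Fin n) (PadicAlgCl ℓ)) := 𝔻.alg.grp

/-- the finite Galois group -/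
abbrev LData.Δ (𝔻 : LData F n ℓ) : Type := 𝔻.proj.Δ

instance (𝔻 : LData F n ℓ) : Group 𝔻.Δ := 𝔻.proj.grp

instance (𝔻 : LData F n ℓ) : TopologicalSpace 𝔻.Δ := 𝔻.proj.top

instance (𝔻 : LData F n ℓ) : DiscreteTopology 𝔻.Δ := 𝔻.proj.disc

/-- the projection of the L-group -/
abbrev LData.δ (𝔻 : LData F n ℓ) : 𝔻.LG →* 𝔻.Δ := 𝔻.proj.δ

/-- the projection of the absolute Galois group -/
abbrev LData.θ (𝔻 : LData F n ℓ) : GK F →* 𝔻.Δ := 𝔻.proj.θ

/-- the bad places -/
abbrev LData.S (𝔻 : LData F n ℓ) : Set (HeightOneSpectrum (𝓞 F)) := 𝔻.sat.S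

/-- the Satake parameters -/
abbrev LData.s (𝔻 : LData F n ℓ) : GK F → 𝔻.LG := 𝔻.sat.s

/-- their characteristic polynomials -/
abbrev LData.P (𝔻 : LData F n ℓ) : HeightOneSpectrum (𝓞 F) → (PadicAlgCl ℓ)[X] := 𝔻.sat.P

/-- The representation in `GL_n` given by a homomorphism to the L-group. -/
noncomputable def LData.rep {G : Type} [Group G] (𝔻 : LData F n ℓ) (r : G →* 𝔻.LG) :
    G →* GL (Fin n) (PadicAlgCl ℓ) :=
  𝔻.LG.subtype.comp r

/-- The elements `a` and `b` of the L-group are conjugate under its subgroup `ker δ` (that is, under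
the dual group `Ĝ`). -/
def LData.DualConj (𝔻 : LData F n ℓ) (a b : 𝔻.LG) : Prop :=
  ∃ γ : 𝔻.LG, 𝔻.δ γ = 1 ∧ a = γ * b * γ⁻¹

/-- The representation is continuous. -/
def Cont {G : Type} [Group G] [TopologicalSpace G] (R : G →* GL (Fin n) (PadicAlgCl ℓ)) : Prop :=
  Continuous fun x => (R x : Matrix (Fin n) (Fin n) (PadicAlgCl ℓ))

/-- The condition of Q1.2 over `F`: `R` is continuous, semisimple and admissible and, for `v ∉ S`, it is
trivial on the inertia groups above `v` and maps the Frobenius elements `σ` at `v` into the class of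
`s σ`. -/
structure IsLParam (𝔻 : LData F n ℓ) (R : GK F →* 𝔻.LG) : Prop where
  cont : Cont (𝔻.rep R)
  semis : Semis (𝔻.rep R)
  admissible : ∀ x, 𝔻.δ (R x) = 𝔻.θ x
  unramified : ∀ v ∉ 𝔻.S, ∀ Q, Above v Q → ∀ σ : GK F, FrobPow v Q 0 σ → R σ = 1
  frobenius : ∀ v ∉ 𝔻.S, ∀ σ : GK F, IsFrob v σ → 𝔻.DualConj (R σ) (𝔻.s σ)

/-- The condition of Q1.2 for the base change to the fixed field `F'` of `H`: `r` is continuous,
semisimple and admissible and, for `v ∉ S` and `Q` above `v`, it is trivial on the inertia group at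
`Q`, and maps the elements of `H` which act on the residue field of `Q` as the `k`-th power, `k > 0`, of a
Frobenius element `σ` at `Q` into the class of `s σ ^ k`. -/
structure IsLParamOver (𝔻 : LData F n ℓ) (H : Subgroup (GK F)) (r : H →* 𝔻.LG) : Prop where
  cont : Cont (𝔻.rep r)
  semis : Semis (𝔻.rep r)
  admissible : ∀ x : H, 𝔻.δ (r x) = 𝔻.θ x
  unramified : ∀ v ∉ 𝔻.S, ∀ Q, Above v Q → ∀ (σ : GK F) (h : σ ∈ H), FrobPow v Q 0 σ →
    r ⟨σ, h⟩ = 1
  frobenius : ∀ v ∉ 𝔻.S, ∀ Q, Above v Q → ∀ σ : GK F, FrobPow v Q 1 σ → ∀ k : ℕ, 0 < k →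
    ∀ (τ : GK F) (h : τ ∈ H), FrobPow v Q k τ → 𝔻.DualConj (r ⟨τ, h⟩) (𝔻.s σ ^ k)

/-- The subgroups `H` of `GK F` whose fixed fields can be reached from `F` by successive cyclic
extensions of prime degrees `p` with `[L (ζ_p) : L] > m` (`GoodLoc`). -/
inductive Reached (F : Type) [Field F] [NumberField F] (m : ℕ)
    (L : IntermediateField ℚ_[ℓ] (PadicAlgCl ℓ)) : Subgroup (GK F) → Prop
  | base : Reached F m L ⊤
  | step (H H' : Subgroup (GK F)) (p : ℕ) : GoodLoc L m p → Reached F m L H' → H ≤ H' →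
      (H.subgroupOf H').Normal → H.relIndex H' = p → Reached F m L H

/-- Up to isomorphism `ρ` is the only continuous semisimple representation with characteristic
polynomials `P v` at the Frobenius elements at `v ∉ S`. -/
def OnlyOne (𝔻 : LData F n ℓ) (ρ : GK F →* GL (Fin n) (PadicAlgCl ℓ)) : Prop :=
  ∀ ρ' : GK F →* GL (Fin n) (PadicAlgCl ℓ), Cont ρ' → Semis ρ' →
    (∀ v ∉ 𝔻.S, ∀ σ : GK F, IsFrob v σ →
      (ρ' σ : Matrix (Fin n) (Fin n) (PadicAlgCl ℓ)).charpoly = 𝔻.P v) →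
    ∃ A : GL (Fin n) (PadicAlgCl ℓ), ∀ x, ρ' x = A * ρ x * A⁻¹

/-- `ρ` is the only representation of `GK F` which extends the representation `r` of `H` and has
characteristic polynomials `P v` at the Frobenius elements at `v ∉ S`. -/
def OnlyExtension (𝔻 : LData F n ℓ) (H : Subgroup (GK F)) (ρ : GK F →* GL (Fin n) (PadicAlgCl ℓ)) :
    Prop :=
  ∀ ρ' : GK F →* GL (Fin n) (PadicAlgCl ℓ), (∀ x ∈ H, ρ' x = ρ x) →
    (∀ v ∉ 𝔻.S, ∀ σ : GK F, IsFrob v σ →
      (ρ' σ : Matrix (Fin n) (Fin n) (PadicAlgCl ℓ)).charpoly = 𝔻.P v) → ρ' = ρ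

/-- Fields over which the restriction of `ρ` to `H` is defined. -/
def KeepsFields (L : IntermediateField ℚ_[ℓ] (PadicAlgCl ℓ)) (H : Subgroup (GK F))
    (ρ : GK F →* GL (Fin n) (PadicAlgCl ℓ)) : Prop :=
  ∀ M : IntermediateField ℚ_[ℓ] (PadicAlgCl ℓ), L ≤ M →
    (∀ x ∈ H, ∀ i j, (ρ x : Matrix (Fin n) (Fin n) (PadicAlgCl ℓ)) i j ∈ M) →
    ∀ x i j, (ρ x : Matrix (Fin n) (Fin n) (PadicAlgCl ℓ)) i j ∈ M

/-- The endomorphisms of the restriction of `ρ` to `H` are endomorphisms of `ρ`. -/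
def KeepsEndomorphisms (H : Subgroup (GK F)) (ρ : GK F →* GL (Fin n) (PadicAlgCl ℓ)) : Prop :=
  ∀ X : Matrix (Fin n) (Fin n) (PadicAlgCl ℓ),
    (∀ x ∈ H, (ρ x : Matrix (Fin n) (Fin n) (PadicAlgCl ℓ)) * X = X * ρ x) →
    ∀ x, (ρ x : Matrix (Fin n) (Fin n) (PadicAlgCl ℓ)) * X = X * ρ x

/-- The invariants of `H` in representations `Ψ ∘ ρ` of dimension at most `m` are invariants of
`GK F`. -/
def KeepsInvariants (m : ℕ) (L : IntermediateField ℚ_[ℓ] (PadicAlgCl ℓ)) (H : Subgroup (GK F))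
    (ρ : GK F →* GL (Fin n) (PadicAlgCl ℓ)) : Prop :=
  ∀ (M : ℕ) (Ψ : GL (Fin n) (PadicAlgCl ℓ) →* GL (Fin M) (PadicAlgCl ℓ)), M ≤ m → RatHom L Ψ →
    ∀ u : Fin M → PadicAlgCl ℓ,
    (∀ x ∈ H, (Ψ (ρ x) : Matrix (Fin M) (Fin M) (PadicAlgCl ℓ)) *ᵥ u = u) →
    ∀ x, (Ψ (ρ x) : Matrix (Fin M) (Fin M) (PadicAlgCl ℓ)) *ᵥ u = u

/-- **All places**, also the ramified ones and those above `ℓ`: a representation `φ` of a subgroup `D`
(such as a decomposition group) with characteristic polynomials over `L` which is isomorphic to `ρ` on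
`D ∩ H` is isomorphic to `ρ` on `D`, by the same isomorphism. -/
def KeepsLocal (L : IntermediateField ℚ_[ℓ] (PadicAlgCl ℓ)) (H : Subgroup (GK F))
    (ρ : GK F →* GL (Fin n) (PadicAlgCl ℓ)) : Prop :=
  ∀ (D : Subgroup (GK F)) (φ : D →* GL (Fin n) (PadicAlgCl ℓ)) (A : GL (Fin n) (PadicAlgCl ℓ)),
    (∀ x, CharOver L (φ x)) → (∀ x : D, (x : GK F) ∈ H → φ x = A * ρ x * A⁻¹) →
    ∀ x : D, φ x = A * ρ x * A⁻¹

/-- `A` is a similitude with factor `c` of the bilinear form with matrix `J`. -/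
def Sim (J : Matrix (Fin n) (Fin n) (PadicAlgCl ℓ)) (c : PadicAlgCl ℓ)
    (A : GL (Fin n) (PadicAlgCl ℓ)) : Prop :=
  (A : Matrix (Fin n) (Fin n) (PadicAlgCl ℓ))ᵀ * J * (A : Matrix (Fin n) (Fin n) (PadicAlgCl ℓ)) =
    c • J

/-- **Symplectic and orthogonal (similitude) groups.**  If `ρ` acts on `H` by similitudes of the form
with invertible matrix `J`, with factor `c v ^ k` at the elements which act as the `k`-th power of the
Frobenius automorphism at `v ∉ S`, and if `c v / x` is a root of `P v` for all roots `x` of `P v`, then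
`ρ` acts by similitudes of the form, with factor `c v` at Frobenius. -/
def KeepsForms (𝔻 : LData F n ℓ) (H : Subgroup (GK F)) (ρ : GK F →* GL (Fin n) (PadicAlgCl ℓ)) :
    Prop :=
  ∀ (J : GL (Fin n) (PadicAlgCl ℓ)) (c : HeightOneSpectrum (𝓞 F) → PadicAlgCl ℓ),
    (∀ v ∉ 𝔻.S, c v ≠ 0 ∧ ∀ x ∈ (𝔻.P v).roots, c v / x ∈ (𝔻.P v).roots) →
    (∀ x ∈ H, ∃ d, Sim (J : Matrix (Fin n) (Fin n) (PadicAlgCl ℓ)) d (ρ x)) →
    (∀ v ∉ 𝔻.S, ∀ Q, Above v Q → ∀ k : ℕ, 0 < k → ∀ σ ∈ H, FrobPow v Q k σ →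
      Sim (J : Matrix (Fin n) (Fin n) (PadicAlgCl ℓ)) (c v ^ k) (ρ σ)) →
    (∀ x, ∃ d, Sim (J : Matrix (Fin n) (Fin n) (PadicAlgCl ℓ)) d (ρ x)) ∧
      ∀ v ∉ 𝔻.S, ∀ σ : GK F, IsFrob v σ →
        Sim (J : Matrix (Fin n) (Fin n) (PadicAlgCl ℓ)) (c v) (ρ σ)

/-- `R` is an answer to Q1.2 over `F` which extends the homomorphism `r` of `H`. -/
structure IsAnswer (𝔻 : LData F n ℓ) (m : ℕ) (H : Subgroup (GK F)) (r : H →* 𝔻.LG)
    (R : GK F →* 𝔻.LG) : Prop where
  param : IsLParam 𝔻 R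
  extends_ : ∀ (x : GK F) (hx : x ∈ H), R x = r ⟨x, hx⟩
  onlyExtension : OnlyExtension 𝔻 H (𝔻.rep R)
  onlyOne : OnlyOne 𝔻 (𝔻.rep R)
  fields : KeepsFields 𝔻.L H (𝔻.rep R)
  endomorphisms : KeepsEndomorphisms H (𝔻.rep R)
  invariants : KeepsInvariants m 𝔻.L H (𝔻.rep R)
  local_ : KeepsLocal 𝔻.L H (𝔻.rep R)
  forms : KeepsForms 𝔻 H (𝔻.rep R)

theorem tower_of_reached {m : ℕ} {L : IntermediateField ℚ_[ℓ] (PadicAlgCl ℓ)}
    {H : Subgroup (GK F)} (h : Reached F m L H) : Tower (Aut L) m Set.univ H := by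
  induction h with
  | base => exact Tower.top
  | step H H' p hp _ hle hn hi ih => exact tower_step hp ih hle hn hi

/-- solvable Galois extensions of good degree are towers of cyclic extensions of good degrees -/
theorem reached_of_solvable {m : ℕ} {L : IntermediateField ℚ_[ℓ] (PadicAlgCl ℓ)}
    {H : Subgroup (GK F)} [hHn : H.Normal] (hH : IsOpen (H : Set (GK F)))
    [hsolv : Group.IsSolvable (GK F ⧸ H)]
    (hgood : ∀ p : ℕ, p.Prime → p ∣ H.index → GoodLoc L m p) : Reached F m L H := by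
  refine chain_induction hH (Reached F m L) Reached.base ?_
  intro M H' _ hle hn hp hdvd hR
  exact Reached.step M H' _ (hgood _ hp hdvd) hR hle hn rfl

theorem isFrob_of {v : HeightOneSpectrum (𝓞 F)} {Q : Ideal (𝓞 (AlgebraicClosure F))}
    (hQ : Above v Q) {σ : GK F} (h : FrobPow v Q 1 σ) : IsFrob v σ :=
  ⟨Q, hQ.1, hQ.2, fun x => by
    have := h x
    rwa [pow_one] at this⟩

/-- the restriction to `H` of a parameter over `F` is one over the fixed field of `H` -/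
theorem over_of_param {𝔻 : LData F n ℓ} {R : GK F →* 𝔻.LG} (h : IsLParam 𝔻 R)
    {H : Subgroup (GK F)} (hH : IsOpen (H : Set (GK F))) :
    IsLParamOver 𝔻 H (R.comp H.subtype) where
  cont := h.cont.comp continuous_subtype_val
  semis := by
    refine Run7.h427.PL.semis_comp (ρ := 𝔻.rep R) h.semis H.subtype ?_
    rw [Subgroup.range_subtype]
    have : Finite (GK F ⧸ H) := Subgroup.quotient_finite_of_isOpen H hH
    exact Subgroup.finiteIndex_of_finite_quotient
  admissible := fun x => h.admissible x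
  unramified := fun v hv Q hQ σ _ hσ => h.unramified v hv Q hQ σ hσ
  frobenius := by
    intro v hv Q hQ σ hσ k _ τ _ hfr
    obtain ⟨γ, hγ, h1⟩ := h.frobenius v hv σ (isFrob_of hQ hσ)
    have h2 := hσ.pow hQ k
    rw [one_mul] at h2
    have h3 := h.unramified v hv Q hQ _ (h2.div hQ hfr)
    rw [map_mul, map_inv, map_pow, inv_mul_eq_one] at h3
    refine ⟨γ, hγ, ?_⟩
    change R τ = _
    rw [← h3, h1, conj_pow]

/-- **Descent of L-parameters.** -/
theorem exists_answer (hn : 0 < n) (𝔻 : LData F n ℓ) {m : ℕ} (hnm : n ≤ m) (hNm : 𝔻.alg.N ≤ m)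
    {H : Subgroup (GK F)} (hH : IsOpen (H : Set (GK F))) (hR : Reached F m 𝔻.L H)
    {r : H →* 𝔻.LG} (hr : IsLParamOver 𝔻 H r) : ∃ R : GK F →* 𝔻.LG, IsAnswer 𝔻 m H r R := by
  classical
  have hV : Tendsto (dens fun v => v ∉ 𝔻.Sᶜ) atTop (𝓝 0) := by
    simp only [Set.mem_compl_iff, not_not]
    exact Run7.h427.DS.dens_finite 𝔻.S 𝔻.sat.fin
  have hTm := tower_of_reached hR
  have hTn := tower_mono hnm hTm
  have hsP0 : ∀ v ∉ 𝔻.S, ∀ σ : GK F, IsFrob v σ → ((𝔻.s σ : GL (Fin n) (PadicAlgCl ℓ)) :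
      Matrix (Fin n) (Fin n) (PadicAlgCl ℓ)).charpoly = 𝔻.P v := 𝔻.sat.sP
  -- a Frobenius element at each place
  have hex : ∀ v : HeightOneSpectrum (𝓞 F), ∀ Q, Above v Q → ∃ σ : GK F, FrobPow v Q 1 σ := by
    intro v Q hQ
    have := hQ.1
    obtain ⟨s, hs⟩ := Pool.Agent.W352.ChAbs.exists_frob v Q hQ.2
    exact ⟨s, fun x => by rw [pow_one]; exact hs x⟩
  have hsP : ∀ v ∉ 𝔻.S, (𝔻.P v).Monic ∧ (𝔻.P v).natDegree = n := by
    intro v hv
    have hint : Algebra.IsIntegral (𝓞 F) (𝓞 (AlgebraicClosure F)) := inferInstance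
    have hmax : v.asIdeal.IsMaximal := v.isMaximal
    obtain ⟨Q, hQ1, hQ2⟩ := Ideal.exists_ideal_over_maximal_of_isIntegral
      (S := 𝓞 (AlgebraicClosure F)) v.asIdeal (by
        rw [(RingHom.injective_iff_ker_eq_bot _).mp
          (FaithfulSMul.algebraMap_injective (𝓞 F) (𝓞 (AlgebraicClosure F)))]
        exact bot_le)
    obtain ⟨σ, hσ⟩ := hex v Q ⟨hQ1, hQ2⟩
    rw [← hsP0 v hv σ (isFrob_of ⟨hQ1, hQ2⟩ hσ)]
    refine ⟨Matrix.charpoly_monic _, ?_⟩
    rw [Matrix.charpoly_natDegree_eq_dim, Fintype.card_fin]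
  have hright : ∀ v ∈ 𝔻.Sᶜ, Right 𝔻.P H (𝔻.rep r) v := by
    intro v hv Q hQ k hk τ hτ hfr
    obtain ⟨σ, hσ⟩ := hex v Q hQ
    obtain ⟨γ, -, h1⟩ := hr.frobenius v hv Q hQ σ hσ k hk τ hτ hfr
    have h2 : 𝔻.rep r ⟨τ, hτ⟩ = (γ : GL (Fin n) (PadicAlgCl ℓ)) *
        (𝔻.s σ : GL (Fin n) (PadicAlgCl ℓ)) ^ k * (γ : GL (Fin n) (PadicAlgCl ℓ))⁻¹ :=
      congrArg Subtype.val h1
    rw [h2, Run7.h427.PL.charpoly_conj, Units.val_pow_eq_pow_val, Run7.h427.CY.roots_pow,
      hsP0 v hv σ (isFrob_of hQ hσ)]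
  obtain ⟨ρ, hρc, hρH, hρs, hρr, hρu, hρL, hρ1, hρX, hρM⟩ := descent_full hn 𝔻.L (T := 𝔻.P) hV
    (fun v hv => (hsP v hv).1) (fun v hv => (hsP v hv).2) 𝔻.sat.PL hTn hH hr.cont hr.semis hright
  have hρP : ∀ v ∉ 𝔻.S, ∀ σ : GK F, IsFrob v σ →
      (ρ σ : Matrix (Fin n) (Fin n) (PadicAlgCl ℓ)).charpoly = 𝔻.P v := by
    intro v hv σ hσ
    apply charpoly_eq_of_roots (hsP v hv).1
    obtain ⟨Q, hQ, hfQ⟩ := isFrob_above hσ
    have h1 := hρr v hv Q hQ 1 one_pos σ hfQ
    simp only [pow_one, Multiset.map_id'] at h1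
    exact h1
  have hinv : KeepsInvariants m 𝔻.L H ρ := by
    intro M Ψ hM hΨ u hu
    refine tower_inv (W := Ψ.comp ρ) hV (fun v _ σ _ τ hτ => ?_) (tower_mono hM hTm) hH hu
    exact smallEig_of_stable (map_aut hτ (hΨ _ (hρL σ)))
  have hmem : ∀ x, ρ x ∈ 𝔻.LG := by
    intro x
    refine hinv 𝔻.alg.N 𝔻.alg.Φ hNm 𝔻.alg.rat 𝔻.alg.w (fun y hy => ?_) x
    rw [hρH y hy]
    exact (r ⟨y, hy⟩).2
  let R : GK F →* 𝔻.LG := ρ.codRestrict 𝔻.LG hmem
  have hRρ : 𝔻.rep R = ρ := by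
    ext1 x
    rfl
  have hRH : ∀ (x : GK F) (hx : x ∈ H), R x = r ⟨x, hx⟩ := fun x hx => Subtype.ext (hρH x hx)
  have hfrob : ∀ v ∉ 𝔻.S, ∀ σ : GK F, IsFrob v σ → 𝔻.DualConj (R σ) (𝔻.s σ) := by
    intro v hv σ hσ
    obtain ⟨Q, hQ, hfQ⟩ := isFrob_above hσ
    have hstab : ∀ τ ∈ Aut 𝔻.L, ((𝔻.s σ : GL (Fin n) (PadicAlgCl ℓ)) :
        Matrix (Fin n) (Fin n) (PadicAlgCl ℓ)).charpoly.map
          (τ : PadicAlgCl ℓ →+* PadicAlgCl ℓ) = ((𝔻.s σ : GL (Fin n) (PadicAlgCl ℓ)) :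
        Matrix (Fin n) (Fin n) (PadicAlgCl ℓ)).charpoly := by
      intro τ hτ
      rw [hsP0 v hv σ hσ]
      exact map_aut hτ (𝔻.sat.PL v hv)
    obtain ⟨γ, ⟨γ', hγ', rfl⟩, h1⟩ := class_of_pow (𝒢 := 𝔻.δ.ker.map 𝔻.LG.subtype)
      (c := (𝔻.s σ : GL (Fin n) (PadicAlgCl ℓ))) (x := σ) hstab
      (fun τ hτ => map_aut hτ (hρL σ)) hTn (fun k hk hx => by
        have hfk := hfQ.pow hQ k
        rw [one_mul] at hfk
        obtain ⟨γ, hγ, h1⟩ := hr.frobenius v hv Q hQ σ hfQ k hk (σ ^ k) hx hfk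
        refine ⟨γ, ⟨γ, hγ, rfl⟩, ?_⟩
        rw [← map_pow, hρH _ hx]
        exact congrArg Subtype.val h1)
    exact ⟨γ', hγ', Subtype.ext h1⟩
  have hadm : ∀ x, 𝔻.δ (R x) = 𝔻.θ x := by
    have hRc : Continuous R := by
      refine Continuous.subtype_mk ?_ _
      rw [Units.continuous_iff]
      refine ⟨hρc, ?_⟩
      have h1 : (fun x : GK F => (((ρ x)⁻¹ : GL (Fin n) (PadicAlgCl ℓ)) :
          Matrix (Fin n) (Fin n) (PadicAlgCl ℓ))) = fun x =>
          (ρ x⁻¹ : Matrix (Fin n) (Fin n) (PadicAlgCl ℓ)) := by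
        funext x
        rw [map_inv]
      rw [h1]
      exact hρc.comp continuous_inv
    let f : GK F →* 𝔻.Δ := 𝔻.δ.comp R
    have hfc : Continuous f := 𝔻.proj.δc.comp hRc
    have hfo : IsOpen (f.ker : Set (GK F)) := by
      have h1 : (f.ker : Set (GK F)) = f ⁻¹' {1} := rfl
      rw [h1]
      exact (isOpen_discrete ({1} : Set 𝔻.Δ)).preimage hfc
    have hθo : IsOpen (𝔻.θ.ker : Set (GK F)) := by
      have h1 : (𝔻.θ.ker : Set (GK F)) = 𝔻.θ ⁻¹' {1} := rfl
      rw [h1]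
      exact (isOpen_discrete ({1} : Set 𝔻.Δ)).preimage 𝔻.proj.θc
    have hUo : IsOpen ((f.ker ⊓ 𝔻.θ.ker : Subgroup (GK F)) : Set (GK F)) := hfo.inter hθo
    intro x
    obtain ⟨v, hv, h, hh, hfr⟩ := exists_frob_coset (f.ker ⊓ 𝔻.θ.ker) hUo x _ hV
    rw [not_not] at hv
    obtain ⟨γ, hγ, h1⟩ := hfrob v hv _ hfr
    have h2 : f (x * h) = 𝔻.θ (x * h) := by
      change 𝔻.δ (R (x * h)) = _
      rw [h1, map_mul, map_mul, map_inv, hγ, inv_one, one_mul, mul_one, 𝔻.sat.sθ v hv _ hfr]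
    have h3 : f h = 1 := hh.1
    have h4 : 𝔻.θ h = 1 := hh.2
    rw [map_mul, map_mul, h3, h4, mul_one, mul_one] at h2
    exact h2
  refine ⟨R, ⟨⟨by rw [hRρ]; exact hρc, by rw [hRρ]; exact hρs, hadm, ?_, hfrob⟩, hRH, ?_, ?_, ?_,
    ?_, by rw [hRρ]; exact hinv, ?_, ?_⟩⟩
  · intro v hv Q hQ σ hσ
    apply Subtype.ext
    refine hρu v hv (fun Q' hQ' σ' h' hσ' => ?_) Q hQ σ hσ
    exact congrArg Subtype.val (hr.unramified v hv Q' hQ' σ' h' hσ')
  · intro ρ' h1 h2
    rw [hRρ] at h1 ⊢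
    exact hρ1 ρ' (fun x hx => by rw [h1 x hx, hρH x hx]) h2
  · intro ρ' h1 h2 h3
    rw [hRρ]
    have htr : ∀ (A : Matrix (Fin n) (Fin n) (PadicAlgCl ℓ)), A.trace = -A.charpoly.coeff (n - 1) := by
      intro A
      have : Nonempty (Fin n) := ⟨⟨0, hn⟩⟩
      rw [Matrix.trace_eq_neg_charpoly_coeff, Fintype.card_fin]
    have h4 := Run7.h427.PL.vanish (⊤ : Subgroup (GK F)) isOpen_univ
      (fun y => (ρ y : Matrix (Fin n) (Fin n) (PadicAlgCl ℓ)).trace -
        (ρ' y : Matrix (Fin n) (Fin n) (PadicAlgCl ℓ)).trace)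
      ((hρc.comp continuous_subtype_val).matrix_trace.sub
        (h1.comp continuous_subtype_val).matrix_trace) _ hV (by
          intro v hv x hx hfr
          rw [not_not] at hv
          rw [sub_eq_zero, htr, htr, hρP v hv x hfr, h3 v hv x hfr])
    exact Run7.h427.PL.exists_iso hρs h2 fun g => sub_eq_zero.mp (h4 ⟨g, Subgroup.mem_top g⟩)
  · intro M hLM hM
    rw [hRρ] at hM ⊢
    exact hρM M hLM fun x i j => by
      have h1 := hM x x.2 i j
      rwa [hρH x x.2] at h1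
  · intro X hX
    rw [hRρ] at hX ⊢
    exact hρX X fun x => by
      have h1 := hX x x.2
      rwa [hρH x x.2] at h1
  · intro D φ A hφ h1
    rw [hRρ] at h1 ⊢
    let ψ : D →* GL (Fin n) (PadicAlgCl ℓ) := (MulAut.conj A).toMonoidHom.comp (ρ.comp D.subtype)
    have hψ : ∀ x : D, ψ x = A * ρ x * A⁻¹ := fun x => rfl
    intro x
    rw [← hψ]
    refine tower_local (𝒯 := Aut 𝔻.L) (fun τ hτ y => smallEig_of_stable (map_aut hτ (hφ y)))
      (fun τ hτ y => ?_) hTn (fun y hy => by rw [h1 y hy, hψ]) x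
    refine smallEig_of_stable ?_
    rw [hψ, Run7.h427.PL.charpoly_conj]
    exact map_aut hτ (hρL y)
  · intro J c hcv hsim hfac
    rw [hRρ] at hsim hfac ⊢
    have hcard : ∀ v ∈ 𝔻.Sᶜ, (𝔻.P v).roots.card = n := fun v hv => by
      rw [← (IsAlgClosed.splits (𝔻.P v)).natDegree_eq_card_roots, (hsP v hv).2]
    obtain ⟨h7, h8⟩ := form_tower hn hρc hV (T := 𝔻.P) hcard
      (fun τ hτ v hv x hx => stable_roots (P := 𝔻.P v) (map_aut hτ (𝔻.sat.PL v hv)) x hx) hρr
      (J := J) (c := c) (fun v hv => (hcv v hv).1) (fun v hv => (hcv v hv).2) hTn hH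
      (fun g hg => hsim g hg)
      (fun v hv Q hQ k hk σ hσ hfr => hfac v hv Q hQ k hk σ hσ hfr)
    refine ⟨fun x => h7 x (Subgroup.mem_top x), fun v hv σ hσ => ?_⟩
    obtain ⟨Q, hQ, hfQ⟩ := isFrob_above hσ
    have h10 := h8 v hv Q hQ 1 one_pos σ (Subgroup.mem_top σ) hfQ
    rw [pow_one] at h10
    exact h10

/-- **Admissible homomorphisms attached to L-algebraic representations, from solvable
extensions.** -/
theorem result (F : Type) [Field F] [NumberField F] (n : ℕ) (hn : 0 < n) (ℓ : ℕ) [Fact ℓ.Prime]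
    (𝔻 : LData F n ℓ) (m : ℕ) (hnm : n ≤ m) (hNm : 𝔻.alg.N ≤ m) :
    -- descent: the homomorphism over `F'` extends, and the extension is an answer over `F`
    (∀ H : Subgroup (GK F), IsOpen (H : Set (GK F)) → Reached F m 𝔻.L H →
      ∀ r : H →* 𝔻.LG, IsLParamOver 𝔻 H r → ∃ R : GK F →* 𝔻.LG, IsAnswer 𝔻 m H r R) ∧
    -- conversely, the restriction of a parameter over `F` is one over `F'`
    (∀ R : GK F →* 𝔻.LG, IsLParam 𝔻 R → ∀ H : Subgroup (GK F), IsOpen (H : Set (GK F)) →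
      IsLParamOver 𝔻 H (R.comp H.subtype)) ∧
    -- solvable Galois extensions of good degree are towers of good cyclic extensions
    (∀ (H : Subgroup (GK F)) (_ : H.Normal), IsOpen (H : Set (GK F)) →
      Group.IsSolvable (GK F ⧸ H) →
      (∀ p : ℕ, p.Prime → p ∣ H.index → GoodLoc 𝔻.L m p) → Reached F m 𝔻.L H) :=
  ⟨fun _ hH hR _ hr => exists_answer hn 𝔻 hnm hNm hH hR hr, fun _ h _ hH => over_of_param h hH,
    fun _ _ hH _ hg => reached_of_solvable hH hg⟩

end Pool.Agent.Results.MP_666dc0_nt.LGroupDescent
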